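import Mathlib

/-!
# Project WE (helper61): definitions and statements for MP_02db74_an

The Hessian (W^{2,ε}) estimate for the class `S(λ,Λ)`: the exponent is at most `C_n (Λ/λ)^{1-n}`.
-/

namespace Pool.Agent.Q61.WE

open MeasureTheory Filter Topology Set Metric
open scoped ENNReal NNReal

/-- Euclidean space `ℝ^n`. -/
abbrev E (n : ℕ) := EuclideanSpace ℝ (Fin n)

/-- The Hessian matrix `D²u(y)`. -/
noncomputable def Hess {n : ℕ} (u : E n → ℝ) (y : E n) : Matrix (Fin n) (Fin n) ℝ :=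
  fun i j => fderiv ℝ (fderiv ℝ u) y (EuclideanSpace.single i 1) (EuclideanSpace.single j 1)

/-- Sum of the positive eigenvalues of a symmetric matrix. -/
noncomputable def eigPos {n : ℕ} (X : Matrix (Fin n) (Fin n) ℝ) : ℝ :=
  if h : X.IsHermitian then ∑ i, max (h.eigenvalues i) 0 else 0

/-- Sum of the absolute values of the negative eigenvalues of a symmetric matrix. -/
noncomputable def eigNeg {n : ℕ} (X : Matrix (Fin n) (Fin n) ℝ) : ℝ :=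
  if h : X.IsHermitian then ∑ i, max (-(h.eigenvalues i)) 0 else 0

/-- Pucci's minimal operator `M⁻(X) = λ ∑_{e>0} e + Λ ∑_{e<0} e`. -/
noncomputable def pucciMin {n : ℕ} (lam Lam : ℝ) (X : Matrix (Fin n) (Fin n) ℝ) : ℝ :=
  lam * eigPos X - Lam * eigNeg X

/-- Pucci's maximal operator `M⁺(X) = Λ ∑_{e>0} e + λ ∑_{e<0} e`. -/
noncomputable def pucciMax {n : ℕ} (lam Lam : ℝ) (X : Matrix (Fin n) (Fin n) ℝ) : ℝ :=
  Lam * eigPos X - lam * eigNeg X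

/-- The class `S(λ,Λ)` of continuous functions on the unit ball with
`M⁻(D²u) ≤ 0 ≤ M⁺(D²u)` in the viscosity sense. -/
def InS {n : ℕ} (lam Lam : ℝ) (u : E n → ℝ) : Prop :=
  ContinuousOn u (ball 0 1) ∧
  ∀ x ∈ ball (0 : E n) 1, ∀ φ : E n → ℝ, ContDiffAt ℝ 2 φ x →
    (IsLocalMin (fun y => u y - φ y) x → pucciMin lam Lam (Hess φ x) ≤ 0) ∧
    (IsLocalMax (fun y => u y - φ y) x → 0 ≤ pucciMax lam Lam (Hess φ x))

/-- There are paraboloids of opening `M` touching `u` at `x` from above and from below in the unit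
ball. -/
def Touched {n : ℕ} (u : E n → ℝ) (x : E n) (M : ℝ) : Prop :=
  (∃ (c : ℝ) (l : E n), u x = c + inner ℝ l x + M / 2 * ‖x‖ ^ 2 ∧
    ∀ y ∈ ball (0 : E n) 1, u y ≤ c + inner ℝ l y + M / 2 * ‖y‖ ^ 2) ∧
  (∃ (c : ℝ) (l : E n), u x = c + inner ℝ l x - M / 2 * ‖x‖ ^ 2 ∧
    ∀ y ∈ ball (0 : E n) 1, c + inner ℝ l y - M / 2 * ‖y‖ ^ 2 ≤ u y)

/-- `Θ(u,x)`: the infimum of the openings of paraboloids touching from both sides. -/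
noncomputable def Theta {n : ℕ} (u : E n → ℝ) (x : E n) : ℝ≥0∞ :=
  ⨅ (M : ℝ) (_ : 0 < M) (_ : Touched u x M), ENNReal.ofReal M

/-- The `W^{2,ε}` (Hessian measure) estimate with exponent `ε`. -/
def HessianEstimate (n : ℕ) (lam Lam ε : ℝ) : Prop :=
  ∃ C : ℝ, ∀ u : E n → ℝ, InS lam Lam u → (∀ y ∈ ball (0 : E n) 1, |u y| ≤ 1) →
    ∀ t : ℝ, 0 < t →
      volume {x ∈ ball (0 : E n) (1 / 2) | ENNReal.ofReal t < Theta u x} ≤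
        ENNReal.ofReal (C * t ^ (-ε))

/-- The optimal exponent `ε*(n,λ,Λ)`. -/
noncomputable def epsStar (n : ℕ) (lam Lam : ℝ) : ℝ≥0∞ :=
  ⨆ (ε : ℝ) (_ : 0 < ε) (_ : HessianEstimate n lam Lam ε), ENNReal.ofReal ε

/-! ## Pucci operators -/

/-- Order, diagonal matrices, continuity, sign change. -/
def S_PUC : Prop := ∀ (n : ℕ) (lam Lam : ℝ), 0 < lam → lam ≤ Lam →
  (∀ X Y : Matrix (Fin n) (Fin n) ℝ, X.IsHermitian → Y.IsHermitian → (Y - X).PosSemidef →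
    pucciMin lam Lam X ≤ pucciMin lam Lam Y ∧ pucciMax lam Lam X ≤ pucciMax lam Lam Y) ∧
  (∀ x : Fin n → ℝ,
    pucciMin lam Lam (Matrix.diagonal x) = lam * ∑ i, max (x i) 0 - Lam * ∑ i, max (-x i) 0 ∧
    pucciMax lam Lam (Matrix.diagonal x) = Lam * ∑ i, max (x i) 0 - lam * ∑ i, max (-x i) 0) ∧
  (∀ X Y : Matrix (Fin n) (Fin n) ℝ, X.IsHermitian → Y.IsHermitian → ∀ δ : ℝ, 0 ≤ δ →
    (∀ i j, |Y i j - X i j| ≤ δ) →
    |pucciMin lam Lam Y - pucciMin lam Lam X| ≤ (n : ℝ) ^ 2 * Lam * δ ∧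
    |pucciMax lam Lam Y - pucciMax lam Lam X| ≤ (n : ℝ) ^ 2 * Lam * δ) ∧
  (∀ X : Matrix (Fin n) (Fin n) ℝ, X.IsHermitian →
    pucciMin lam Lam (-X) = -pucciMax lam Lam X ∧ pucciMax lam Lam (-X) = -pucciMin lam Lam X)

/-! ## Hessians -/

/-- Basic rules for the Hessian of `C²` functions. -/
def S_HB : Prop := ∀ (n : ℕ),
  (∀ φ ψ : E n → ℝ, ContDiff ℝ 2 φ → ContDiff ℝ 2 ψ → ∀ y,
    Hess (fun z => φ z + ψ z) y = Hess φ y + Hess ψ y) ∧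
  (∀ φ : E n → ℝ, ∀ y, Hess (fun z => -φ z) y = -Hess φ y) ∧
  (∀ φ : E n → ℝ, ∀ y, ContDiffAt ℝ 2 φ y → (Hess φ y).IsHermitian) ∧
  (∀ φ : E n → ℝ, ∀ y, y ∉ tsupport φ → Hess φ y = 0) ∧
  (∀ φ : E n → ℝ, ContDiff ℝ 2 φ → ∀ i j, Continuous fun y => Hess φ y i j) ∧
  (∀ x : Fin n → ℝ, ContDiff ℝ 2 (fun y : E n => (1 / 2 : ℝ) * ∑ l, x l * y l ^ 2) ∧
    ∀ y, Hess (fun y : E n => (1 / 2 : ℝ) * ∑ l, x l * y l ^ 2) y = Matrix.diagonal x)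

/-- Second derivative test. -/
def S_SDT : Prop := ∀ (n : ℕ) (f : E n → ℝ) (x : E n), ContDiffAt ℝ 2 f x → IsLocalMin f x →
  (Hess f x).PosSemidef

/-- A `C²` function with `M⁻(D²u) ≤ 0 ≤ M⁺(D²u)` everywhere belongs to `S(λ,Λ)`. -/
def S_VISC : Prop := ∀ (n : ℕ) (lam Lam : ℝ), 0 < lam → lam ≤ Lam → ∀ u : E n → ℝ,
  ContDiff ℝ 2 u → (∀ y, pucciMin lam Lam (Hess u y) ≤ 0 ∧ 0 ≤ pucciMax lam Lam (Hess u y)) →
  InS lam Lam u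

/-- `|∂_i∂_i u| ≤ Θ(u,·)`. -/
def S_THETA : Prop := ∀ (n : ℕ) (u : E n → ℝ), ContDiff ℝ 2 u → ∀ y ∈ ball (0 : E n) 1, ∀ i,
  ENNReal.ofReal |Hess u y i i| ≤ Theta u y

/-! ## Refinements -/

/-- The open cone `{M⁻ < 0 < M⁺}`. -/
def KK {n : ℕ} (lam Lam : ℝ) (X : Matrix (Fin n) (Fin n) ℝ) : Prop :=
  X.IsHermitian ∧ pucciMin lam Lam X < 0 ∧ 0 < pucciMax lam Lam X

/-- The quadratic function with Hessian `diag x` can be modified in every bounded open set `U`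
(compactly supported `C²` small perturbation, Hessian always in the open cone `KK`) so that on a
part of `U` of relative volume almost `μ` some pure second derivative has size at least `T`. -/
def Refine (n : ℕ) (lam Lam T : ℝ) (x : Fin n → ℝ) (μ : ℝ) : Prop :=
  ∀ U : Set (E n), IsOpen U → Bornology.IsBounded U → ∀ η : ℝ, 0 < η →
    ∃ φ : E n → ℝ, ContDiff ℝ 2 φ ∧ HasCompactSupport φ ∧ tsupport φ ⊆ U ∧ (∀ y, |φ y| ≤ η) ∧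
      (∀ y, KK lam Lam (Matrix.diagonal x + Hess φ y)) ∧
      μ * volume.real U - η ≤ volume.real {y ∈ U | ∃ k, T ≤ |x k + Hess φ y k k|}

/-- The trivial refinements. -/
def S_REF : Prop := ∀ (n : ℕ) (lam Lam T : ℝ) (x : Fin n → ℝ), 0 < lam → lam ≤ Lam →
  (KK lam Lam (Matrix.diagonal x) → Refine n lam Lam T x 0) ∧
  (KK lam Lam (Matrix.diagonal x) → (∃ k, T ≤ |x k|) → Refine n lam Lam T x 1) ∧
  (∀ μ, Refine n lam Lam T x μ → Refine n lam Lam T (-x) μ) ∧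
  (∀ μ μ', μ' ≤ μ → Refine n lam Lam T x μ → Refine n lam Lam T x μ')

/-- A periodic function whose second derivative takes mostly the two values `-s₁`, `s₂`. -/
def S_OSC : Prop := ∀ s₁ s₂ η : ℝ, 0 < s₁ → 0 < s₂ → 0 < η →
  ∃ (H : ℝ → ℝ) (J₁ J₂ : Set ℝ), ContDiff ℝ 2 H ∧ (∃ B : ℝ, ∀ t, |H t| ≤ B ∧ |deriv H t| ≤ B) ∧
    (∀ t, -s₁ ≤ deriv (deriv H) t ∧ deriv (deriv H) t ≤ s₂) ∧
    IsOpen J₁ ∧ IsOpen J₂ ∧ Disjoint J₁ J₂ ∧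
    (∀ t ∈ J₁, deriv (deriv H) t = -s₁) ∧ (∀ t ∈ J₂, deriv (deriv H) t = s₂) ∧
    (∀ c : ℝ, s₂ / (s₁ + s₂) - η ≤ volume.real (J₁ ∩ Icc c (c + 1))) ∧
    (∀ c : ℝ, s₁ / (s₁ + s₂) - η ≤ volume.real (J₂ ∩ Icc c (c + 1)))

/-- Choice of the phase by averaging. -/
def S_AVG : Prop := ∀ (n : ℕ) (V : Set (E n)), IsOpen V → Bornology.IsBounded V →
  ∀ f : E n → ℝ, Continuous f → ∀ J₁ J₂ : Set ℝ, IsOpen J₁ → IsOpen J₂ →
  ∀ α₁ α₂ μ₁ μ₂ : ℝ, 0 ≤ μ₁ → 0 ≤ μ₂ →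
  (∀ c : ℝ, α₁ ≤ volume.real (J₁ ∩ Icc c (c + 1))) →
  (∀ c : ℝ, α₂ ≤ volume.real (J₂ ∩ Icc c (c + 1))) →
  ∃ θ : ℝ, (μ₁ * α₁ + μ₂ * α₂) * volume.real V ≤
    μ₁ * volume.real {y ∈ V | f y + θ ∈ J₁} + μ₂ * volume.real {y ∈ V | f y + θ ∈ J₂}

/-- Cut-off functions. -/
def S_CUT : Prop := ∀ (n : ℕ) (U : Set (E n)), IsOpen U → Bornology.IsBounded U →
  ∀ η : ℝ, 0 < η → ∃ χ : E n → ℝ, ContDiff ℝ 2 χ ∧ HasCompactSupport χ ∧ tsupport χ ⊆ U ∧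
    (∀ y, 0 ≤ χ y ∧ χ y ≤ 1) ∧ ∃ V : Set (E n), IsOpen V ∧ V ⊆ U ∧ (∀ y ∈ V, χ y = 1) ∧
      volume.real U - η ≤ volume.real V

/-- The Hessian of a localised oscillation. -/
def S_PROD : Prop := ∀ (n : ℕ) (i : Fin n) (χ : E n → ℝ) (H : ℝ → ℝ),
  ContDiff ℝ 2 χ → HasCompactSupport χ → ContDiff ℝ 2 H →
  (∃ B : ℝ, ∀ t, |H t| ≤ B ∧ |deriv H t| ≤ B) →
  ∃ B : ℝ, ∀ δ : ℝ, 0 < δ → δ ≤ 1 → ∀ θ : ℝ,
    ContDiff ℝ 2 (fun y : E n => χ y * (δ ^ 2 * H (y i / δ + θ))) ∧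
    tsupport (fun y : E n => χ y * (δ ^ 2 * H (y i / δ + θ))) ⊆ tsupport χ ∧
    (∀ y : E n, |χ y * (δ ^ 2 * H (y i / δ + θ))| ≤ B * δ) ∧
    (∀ y : E n, ∀ k l, |(Hess (fun y : E n => χ y * (δ ^ 2 * H (y i / δ + θ))) y
      - Matrix.diagonal (Pi.single i (χ y * deriv (deriv H) (y i / δ + θ)))) k l| ≤ B * δ) ∧
    (∀ V : Set (E n), IsOpen V → (∀ y ∈ V, χ y = 1) → ∀ y ∈ V,
      Hess (fun y : E n => χ y * (δ ^ 2 * H (y i / δ + θ))) y =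
        Matrix.diagonal (Pi.single i (deriv (deriv H) (y i / δ + θ))))

/-- Splitting of one diagonal entry. -/
def S_SPLIT : Prop := ∀ (n : ℕ) (lam Lam T : ℝ) (x : Fin n → ℝ) (i : Fin n) (a b μ₁ μ₂ : ℝ),
  0 < lam → lam ≤ Lam → a < x i → x i < b → 0 ≤ μ₁ → 0 ≤ μ₂ →
  KK lam Lam (Matrix.diagonal (Function.update x i a)) →
  KK lam Lam (Matrix.diagonal (Function.update x i b)) →
  Refine n lam Lam T (Function.update x i a) μ₁ →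
  Refine n lam Lam T (Function.update x i b) μ₂ →
  Refine n lam Lam T x ((b - x i) / (b - a) * μ₁ + (x i - a) / (b - a) * μ₂)

/-! ## The potential -/

/-- The weight of one coordinate. -/
noncomputable def gw (L y : ℝ) : ℝ := (max y 0 + 2 + 10 * √(max y 0 + 2)) / L

/-- Product of the weights, one factor `gw L 0` removed. -/
noncomputable def Phi (n : ℕ) (L : ℝ) (x : Fin n → ℝ) (N : ℝ) : ℝ :=
  (∏ l, gw L (x l / N)) / gw L 0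

/-- The constant `A`. -/
noncomputable def Ac (n : ℕ) : ℝ := (32 * (n : ℝ)) ^ (n - 1)

/-- The exponent of the potential. -/
noncomputable def epn (n : ℕ) (L : ℝ) : ℝ := 20 * (2848 * (n : ℝ) / L) ^ (n - 1)

/-- The potential. -/
noncomputable def Vp (n : ℕ) (L : ℝ) (x : Fin n → ℝ) (N P : ℝ) : ℝ :=
  (P * N) ^ (epn n L) * max 0 (1 - Ac n * Phi n L x N)

/-- States: the smallest entry is `-N < 0`, the largest is `P ≥ N`, and `P ≤ L N / (2 n)`. -/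
structure Sta (n : ℕ) (L : ℝ) (x : Fin n → ℝ) (N P : ℝ) : Prop where
  hN : 0 < N
  hlo : ∀ l, -N ≤ x l
  hj : ∃ j, x j = -N
  hup : ∀ l, x l ≤ P
  hp : ∃ p, x p = P
  hNP : N ≤ P
  hcap : P ≤ L * N / (2 * n)

/-- One variable inequalities for the weight. -/
def S_GW : Prop := ∀ (n : ℕ) (L : ℝ), 3 ≤ n → 6000 * (n : ℝ) ≤ L →
  (∀ y, 0 < gw L y) ∧ (∀ y z, y ≤ z → gw L y ≤ gw L z) ∧
  (∀ y, 30 ≤ y → gw L (y / 2) ≤ 73 / 100 * gw L y) ∧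
  (∀ y, y ≤ 30 → gw L y ≤ 89 / L) ∧
  (∀ y, -1 ≤ y → y ≤ L / (2 * n) →
    (y + 2) / (L / (2 * n) + 2) * gw L (L / (2 * n)) ≤ gw L y) ∧
  (∀ y, -1 ≤ y → max y 0 + 2 ≤ (L / (2 * n) + 2) / 16 →
    73 / 100 * gw L 0 + (y + 2) / (L / (2 * n) + 2) * gw L (L / (2 * n)) ≤ gw L y) ∧
  (∀ y, (L / (2 * n) + 2) / 16 < max y 0 + 2 → 1 / (32 * (n : ℝ)) ≤ gw L y) ∧
  (2848 * (n : ℝ) / L) ^ (n - 1) ≤ 1 / 2

/-- One step of the strategy. -/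
def S_STEP : Prop := ∀ (n : ℕ) (L : ℝ) (x : Fin n → ℝ) (N P : ℝ), 3 ≤ n → 6000 * (n : ℝ) ≤ L →
  Sta n L x N P → 0 < Vp n L x N P →
  ∃ i, -(2 * N) < x i ∧ x i < L * N / (2 * n) ∧
    Sta n L (Function.update x i (L * N / (2 * n))) N (L * N / (2 * n)) ∧
    ∃ (z : Fin n → ℝ) (N' P' : ℝ),
      (z = Function.update x i (-(2 * N)) ∨ z = -Function.update x i (-(2 * N))) ∧
      Sta n L z N' P' ∧ P' * N' = 2 * (P * N) ∧
      Vp n L x N P ≤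
        (L * N / (2 * n) - x i) / (L * N / (2 * n) - -(2 * N)) * Vp n L z N' P' +
        (x i - -(2 * N)) / (L * N / (2 * n) - -(2 * N)) *
          Vp n L (Function.update x i (L * N / (2 * n))) N (L * N / (2 * n))

/-- States give matrices in the open cone. -/
def S_KST : Prop := ∀ (n : ℕ) (lam Lam : ℝ) (x : Fin n → ℝ) (N P : ℝ), 3 ≤ n → 0 < lam →
  lam ≤ Lam → 6000 * (n : ℝ) ≤ Lam / lam → Sta n (Lam / lam) x N P →
  KK lam Lam (Matrix.diagonal x) ∧ KK lam Lam (Matrix.diagonal (-x))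

/-- Main induction. -/
def S_IND : Prop := ∀ (n : ℕ) (lam Lam T : ℝ) (x : Fin n → ℝ) (N P : ℝ), 3 ≤ n → 0 < lam →
  lam ≤ Lam → 6000 * (n : ℝ) ≤ Lam / lam → 1 ≤ T → Sta n (Lam / lam) x N P → P * N < T ^ 2 →
  Refine n lam Lam T x
    ((Lam / lam * T ^ 2) ^ (-epn n (Lam / lam)) * Vp n (Lam / lam) x N P)

/-- The starting state. -/
noncomputable def x0 (n : ℕ) : Fin n → ℝ :=
  fun l => if (l : ℕ) = 0 then 1 else if (l : ℕ) = 1 then -1 else 0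

/-- Refinement of the starting state. -/
def S_START : Prop := ∀ (n : ℕ) (lam Lam T : ℝ), 3 ≤ n → 0 < lam →
  lam ≤ Lam → 6000 * (n : ℝ) ≤ Lam / lam → 2 ≤ T →
  Refine n lam Lam T (x0 n) (1 / 2 * (Lam / lam * T ^ 2) ^ (-epn n (Lam / lam)))

/-- The estimate forces `ε ≤ 2 epn`. -/
def S_EXP : Prop := ∀ (n : ℕ) (lam Lam ε : ℝ), 3 ≤ n → 0 < lam →
  lam ≤ Lam → 6000 * (n : ℝ) ≤ Lam / lam → HessianEstimate n lam Lam ε →
  ε ≤ 2 * epn n (Lam / lam)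

/-- Final statement. -/
def S_FINAL : Prop := ∀ n : ℕ, 3 ≤ n → ∃ C : ℝ, 0 < C ∧ ∃ L₀ : ℝ, ∀ lam Lam : ℝ, 0 < lam →
  lam ≤ Lam → L₀ ≤ Lam / lam →
  epsStar n lam Lam ≤ ENNReal.ofReal (C * (Lam / lam) ^ (1 - (n : ℝ)))

end Pool.Agent.Q61.WE
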